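import Pool.Agent.W23.DC.Defs
import Pool.Agent.Helper923.HMertens

/-! DC-MP: Mertens' second theorem on [N^a, N^b]. -/

namespace Pool.Agent.W378.DC

open Finset
open Pool.Agent.H442R2
open Pool.Agent.W23.DC

namespace TMP

/-- the primes in `[N^a, N^b)` as an interval of integers -/
theorem pr_eq {N : ℕ} (hN : 2 ≤ N) {a b : ℝ} (hb : b ≤ 1) :
    pr N a b = (Ioc (⌈(N : ℝ) ^ a⌉₊ - 1) (⌈(N : ℝ) ^ b⌉₊ - 1)).filter Nat.Prime := by
  classical
  have hN1 : (1 : ℝ) < N := by exact_mod_cast (by omega : 1 < N)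
  have hN0 : (0 : ℝ) < N := by linarith
  have hL : 0 < Real.log N := Real.log_pos hN1
  have hx : ∀ c : ℝ, 0 < ⌈(N : ℝ) ^ c⌉₊ := fun c => Nat.ceil_pos.2 (Real.rpow_pos_of_pos hN0 c)
  ext p
  unfold pr
  rw [Finset.mem_filter, Finset.mem_filter, Finset.mem_Icc, Finset.mem_Ioc]
  have h1 : ∀ (c : ℝ), p.Prime → (c ≤ tt N p ↔ (N : ℝ) ^ c ≤ p) := by
    intro c hp
    have hp0 : (0 : ℝ) < p := by exact_mod_cast hp.pos
    unfold tt
    rw [le_div_iff₀ hL, Real.rpow_def_of_pos hN0, ← Real.le_log_iff_exp_le hp0, mul_comm]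
  constructor
  · rintro ⟨⟨h2, h3⟩, hp, h4, h5⟩
    refine ⟨⟨?_, ?_⟩, hp⟩
    · have h6 := (h1 a hp).1 h4
      have h7 := Nat.ceil_le.2 h6
      have := hx a
      omega
    · have h6 : ¬ (N : ℝ) ^ b ≤ p := fun h => absurd ((h1 b hp).2 h) (not_le.2 h5)
      have h7 : ¬ ⌈(N : ℝ) ^ b⌉₊ ≤ p := fun h => h6 (Nat.ceil_le.1 h)
      omega
  · rintro ⟨⟨h2, h3⟩, hp⟩
    have h4 : ⌈(N : ℝ) ^ a⌉₊ ≤ p := by omega
    have h5 : p < ⌈(N : ℝ) ^ b⌉₊ := by
      have := hx b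
      omega
    have h6 : ¬ (N : ℝ) ^ b ≤ p := fun h => absurd (Nat.ceil_le.2 h) (not_le.2 h5)
    refine ⟨⟨hp.one_lt.le, ?_⟩, hp, (h1 a hp).2 (Nat.ceil_le.1 h4), ?_⟩
    · have h7 : (N : ℝ) ^ b ≤ (N : ℝ) ^ (1 : ℝ) := Real.rpow_le_rpow_of_exponent_le hN1.le hb
      rw [Real.rpow_one] at h7
      have h8 : (p : ℝ) < N := lt_of_lt_of_le (not_le.1 h6) h7
      have h9 : p < N := by exact_mod_cast h8
      exact h9.le
    · exact not_le.1 fun h => h6 ((h1 b hp).1 h)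

/-- the shifted harmonic sum -/
theorem shift (A : ℕ) (hA : 1 ≤ A) : ∀ B : ℕ, A ≤ B →
    ∑ p ∈ Ioc A B, (1 / ((p : ℝ) - 1) - 1 / (p : ℝ)) = 1 / (A : ℝ) - 1 / B := by
  intro B hAB
  induction B, hAB using Nat.le_induction with
  | base => simp
  | succ B hAB ih =>
    have h1 : Ioc A (B + 1) = insert (B + 1) (Ioc A B) := by
      ext x
      simp only [Finset.mem_Ioc, Finset.mem_insert]
      omega
    rw [h1, Finset.sum_insert (by simp), ih]
    push_cast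
    have h2 : (B : ℝ) + 1 - 1 = B := by ring
    rw [h2]
    ring

theorem shift_prime {A B : ℕ} (hA : 1 ≤ A) (hAB : A ≤ B) :
    0 ≤ ∑ p ∈ (Ioc A B).filter Nat.Prime, (1 / ((p : ℝ) - 1) - 1 / (p : ℝ)) ∧
    ∑ p ∈ (Ioc A B).filter Nat.Prime, (1 / ((p : ℝ) - 1) - 1 / (p : ℝ)) ≤ 1 / (A : ℝ) := by
  have hnn : ∀ p ∈ Ioc A B, 0 ≤ (1 / ((p : ℝ) - 1) - 1 / (p : ℝ)) := by
    intro p hp
    rw [Finset.mem_Ioc] at hp
    have h1 : (2 : ℝ) ≤ p := by exact_mod_cast (by omega : 2 ≤ p)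
    rw [sub_nonneg]
    apply one_div_le_one_div_of_le <;> linarith
  refine ⟨Finset.sum_nonneg fun p hp => hnn p (Finset.mem_filter.1 hp).1, ?_⟩
  have h1 := Finset.sum_le_sum_of_subset_of_nonneg (Finset.filter_subset Nat.Prime (Ioc A B))
    (fun p hp _ => hnn p hp)
  rw [shift A hA B hAB] at h1
  have h2 : (0 : ℝ) ≤ 1 / B := by positivity
  linarith

/-- `log log` of a large number and of the integer below -/
theorem loglog {x : ℝ} {A : ℕ} (hA : 2 ≤ A) (h1 : (A : ℝ) ≤ x) (h2 : x ≤ A + 1) :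
    0 ≤ Real.log (Real.log x) - Real.log (Real.log A) ∧
    Real.log (Real.log x) - Real.log (Real.log A) ≤ 1 / Real.log A := by
  have hA2 : (2 : ℝ) ≤ A := by exact_mod_cast hA
  have hlA : 0 < Real.log A := Real.log_pos (by linarith)
  have h3 : Real.log A ≤ Real.log x := Real.log_le_log (by linarith) h1
  have hlx : 0 < Real.log x := by linarith
  have h4 : Real.log (Real.log A) ≤ Real.log (Real.log x) := Real.log_le_log hlA h3
  refine ⟨by linarith, ?_⟩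
  rw [← Real.log_div hlx.ne' hlA.ne']
  have h5 : Real.log (Real.log x / Real.log A) ≤ Real.log x / Real.log A - 1 :=
    Real.log_le_sub_one_of_pos (by positivity)
  refine h5.trans ?_
  rw [div_sub_one hlA.ne']
  apply div_le_div_of_nonneg_right _ hlA.le
  rw [← Real.log_div (by linarith) (by linarith)]
  have h6 : Real.log (x / A) ≤ x / A - 1 :=
    Real.log_le_sub_one_of_pos (div_pos (by linarith) (by linarith))
  refine h6.trans ?_
  rw [div_sub_one (by linarith), div_le_one (by linarith)]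
  linarith

end TMP

open TMP in
theorem MP : St_MP := by
  intro ε₁ η hε hη
  obtain ⟨C, hC0, hC⟩ := Pool.Agent.Helper923.HMertens.mertens_ratio
  set K : ℝ := max 1 ((C + 2) / η) with hK
  have hK1 : 1 ≤ K := le_max_left _ _
  have hK2 : (C + 2) / η ≤ K := le_max_right _ _
  have hK3 : C + 2 ≤ η * K := by
    rw [div_le_iff₀ hη] at hK2
    linarith
  have hev : ∀ᶠ N : ℕ in Filter.atTop, Real.exp K + 2 ≤ (N : ℝ) ^ ε₁ :=
    ((tendsto_rpow_atTop hε).comp tendsto_natCast_atTop_atTop).eventually_ge_atTop _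
  obtain ⟨N₀, hN₀⟩ := Filter.eventually_atTop.1 hev
  refine ⟨max N₀ 2, fun N hN a b ha hab hb => ?_⟩
  have hN2 : 2 ≤ N := (le_max_right _ _).trans hN
  have hNe := hN₀ N ((le_max_left _ _).trans hN)
  have hN1 : (1 : ℝ) < N := by exact_mod_cast (by omega : 1 < N)
  have hN0 : (0 : ℝ) < N := by linarith
  have hL : 0 < Real.log N := Real.log_pos hN1
  have hx1 : Real.exp K + 2 ≤ (N : ℝ) ^ a :=
    hNe.trans (Real.rpow_le_rpow_of_exponent_le hN1.le ha)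
  have hxy : (N : ℝ) ^ a ≤ (N : ℝ) ^ b := Real.rpow_le_rpow_of_exponent_le hN1.le hab
  have hK4 : (1 : ℝ) ≤ Real.exp K := Real.one_le_exp (by linarith)
  rw [pr_eq hN2 hb]
  -- the integers
  have hcast : ∀ c : ℝ, Real.exp K + 2 ≤ (N : ℝ) ^ c →
      ((⌈(N : ℝ) ^ c⌉₊ - 1 : ℕ) : ℝ) ≤ (N : ℝ) ^ c ∧ (N : ℝ) ^ c ≤ (⌈(N : ℝ) ^ c⌉₊ - 1 : ℕ) + 1 ∧
      2 ≤ ⌈(N : ℝ) ^ c⌉₊ - 1 := by
    intro c hc
    have h1 := Nat.le_ceil ((N : ℝ) ^ c)
    have h2 := Nat.ceil_lt_add_one (show 0 ≤ (N : ℝ) ^ c by linarith)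
    have h3 : (3 : ℝ) ≤ ⌈(N : ℝ) ^ c⌉₊ := by linarith
    have h4 : 3 ≤ ⌈(N : ℝ) ^ c⌉₊ := by exact_mod_cast h3
    rw [Nat.cast_sub (by omega)]
    push_cast
    refine ⟨by linarith, by linarith, by omega⟩
  obtain ⟨hA1, hA2, hA3⟩ := hcast a hx1
  obtain ⟨hB1, hB2, hB3⟩ := hcast b (hx1.trans hxy)
  have hAB : ⌈(N : ℝ) ^ a⌉₊ - 1 ≤ ⌈(N : ℝ) ^ b⌉₊ - 1 := Nat.sub_le_sub_right (Nat.ceil_mono hxy) 1
  set A := ⌈(N : ℝ) ^ a⌉₊ - 1 with hA
  set B := ⌈(N : ℝ) ^ b⌉₊ - 1 with hB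
  have hAr : (2 : ℝ) ≤ A := by exact_mod_cast hA3
  have hBr : (2 : ℝ) ≤ B := by exact_mod_cast hB3
  have hABr : (A : ℝ) ≤ B := by exact_mod_cast hAB
  have hAK : Real.exp K ≤ A := by linarith
  have hlA : K ≤ Real.log A := (Real.le_log_iff_exp_le (by linarith)).2 hAK
  have hlA0 : 0 < Real.log A := by linarith
  have hlB0 : 0 < Real.log B := Real.log_pos (by linarith)
  have hlAB : Real.log A ≤ Real.log B := Real.log_le_log (by linarith) hABr
  have m1 := hC A B hA3 hAB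
  have m2 := shift_prime (A := A) (B := B) (by omega) hAB
  rw [Finset.sum_sub_distrib] at m2
  have m3 := loglog hA3 hA1 hA2
  have m4 := loglog hB3 hB1 hB2
  have m5 : 1 / Real.log B ≤ 1 / Real.log A := one_div_le_one_div_of_le hlA0 hlAB
  have m6 : 1 / (A : ℝ) ≤ 1 / Real.log A := by
    apply one_div_le_one_div_of_le hlA0
    have := Real.log_le_sub_one_of_pos (show (0 : ℝ) < A by linarith)
    linarith
  have ha0 : 0 < a := by linarith
  have hb0 : 0 < b := by linarith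
  have hloga : Real.log ((N : ℝ) ^ a) = a * Real.log N := Real.log_rpow hN0 a
  have hlogb : Real.log ((N : ℝ) ^ b) = b * Real.log N := Real.log_rpow hN0 b
  rw [hloga, Real.log_mul ha0.ne' hL.ne'] at m3
  rw [hlogb, Real.log_mul hb0.ne' hL.ne'] at m4
  rw [Real.log_div hlB0.ne' hlA0.ne'] at m1
  rw [Real.log_div hb0.ne' ha0.ne']
  have m7 : (C + 2) / Real.log A ≤ η := by
    rw [div_le_iff₀ hlA0]
    nlinarith
  have m8 : (C + 2) / Real.log A = C / Real.log A + 1 / Real.log A + 1 / Real.log A := by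
    field_simp
    ring
  obtain ⟨m1a, m1b⟩ := abs_le.1 m1
  rw [abs_le]
  constructor <;> linarith [m2.1, m2.2, m3.1, m3.2, m4.1, m4.2]

end Pool.Agent.W378.DC
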