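import Pool.Agent.W23.DC.Defs

/-! DC-FA: the moduli of the weighted sieve are factorable. -/

namespace Pool.Agent.W378.DC

open Finset
open Pool.Agent.H442R2
open Pool.Agent.W23.DC

namespace TFA

theorem logN_pos {N : ℕ} (hN : 2 ≤ N) : 0 < Real.log N :=
  Real.log_pos (by exact_mod_cast (by omega : 1 < N))

/-- size of a squarefree number -/
theorem sz_eq {N d : ℕ} (hd : Squarefree d) :
    sz (tt N) d = Real.log d / Real.log N := by
  have h1 : (∏ p ∈ d.primeFactors, p) = d := Nat.prod_primeFactors_of_squarefree hd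
  have h2 : Real.log (d : ℝ) = ∑ p ∈ d.primeFactors, Real.log (p : ℝ) := by
    conv_lhs => rw [← h1]
    push_cast
    rw [Real.log_prod]
    intro p hp
    have := (Nat.prime_of_mem_primeFactors hp).pos
    positivity
  rw [h2, Finset.sum_div]
  rfl

theorem sz_mul {N u v : ℕ} (h : Squarefree (u * v)) :
    sz (tt N) (u * v) = sz (tt N) u + sz (tt N) v := by
  have hu : Squarefree u := h.squarefree_of_dvd (dvd_mul_right u v)
  have hv : Squarefree v := h.squarefree_of_dvd (dvd_mul_left v u)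
  rw [sz_eq h, sz_eq hu, sz_eq hv]
  push_cast
  rw [Real.log_mul, add_div]
  · exact_mod_cast hu.ne_zero
  · exact_mod_cast hv.ne_zero

theorem rpow_eq {N d : ℕ} (hN : 2 ≤ N) (hd : Squarefree d) :
    (d : ℝ) = (N : ℝ) ^ (sz (tt N) d) := by
  have hL := logN_pos hN
  have hd0 : (0 : ℝ) < d := by
    have := Nat.pos_of_ne_zero hd.ne_zero
    exact_mod_cast this
  have hN0 : (0 : ℝ) < N := by
    have : 0 < N := by omega
    exact_mod_cast this
  rw [sz_eq hd, Real.rpow_def_of_pos hN0, mul_div_cancel₀ _ hL.ne', Real.exp_log hd0]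

theorem mem_facR {N d : ℕ} {ε₁ : ℝ} (hN : 2 ≤ N) (hε : 0 < ε₁) (hd1 : 1 < d)
    (hsq : Squarefree d) (hp : ∀ p ∈ d.primeFactors, ε₁ ≤ tt N p)
    (hsz : sz (tt N) d ≤ 111 / 200)
    (hs : 51 / 100 < sz (tt N) d → ∃ s : ℕ, s ∣ d ∧
      2 * sz (tt N) d - 1 + 1 / 500 ≤ sz (tt N) s ∧
      sz (tt N) s + 7 * sz (tt N) d ≤ 4 - 1 / 500) :
    d ∈ facR N (111 / 200) (ε₁ / 2) (1 / 500) := by
  classical
  have hN1 : (1 : ℝ) < N := by exact_mod_cast (by omega : 1 < N)
  have hN0 : (0 : ℝ) < N := by linarith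
  have hL := logN_pos hN
  have hdN := rpow_eq hN hsq
  unfold facR BX.roughs
  rw [Finset.mem_filter, Finset.mem_filter, Finset.mem_Icc]
  refine ⟨⟨⟨by omega, ?_⟩, hd1, ?_⟩, ?_⟩
  · apply Nat.le_floor
    rw [hdN]
    exact Real.rpow_le_rpow_of_exponent_le hN1.le hsz
  · intro p hpp hpd
    have h1 := hp p (Nat.mem_primeFactors.2 ⟨hpp, hpd, hsq.ne_zero⟩)
    have hp0 : (0 : ℝ) < p := by exact_mod_cast hpp.pos
    unfold tt at h1
    rw [le_div_iff₀ hL] at h1
    rw [← Real.exp_log hp0, Real.rpow_def_of_pos hN0]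
    apply Real.exp_lt_exp.2
    nlinarith
  · by_cases h : sz (tt N) d ≤ 51 / 100
    · left
      rw [hdN]
      exact Real.rpow_le_rpow_of_exponent_le hN1.le h
    · right
      push Not at h
      obtain ⟨s, hsd, h1, h2⟩ := hs h
      have hss : Squarefree s := hsq.squarefree_of_dvd hsd
      have hsN := rpow_eq hN hss
      refine ⟨hsq, s, hsd, ?_, ?_⟩
      · rw [hdN, hsN, ← Real.rpow_natCast, ← Real.rpow_mul hN0.le, ← Real.rpow_add hN0]
        apply Real.rpow_le_rpow_of_exponent_le hN1.le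
        push_cast
        linarith
      · rw [hdN, hsN, ← Real.rpow_natCast, ← Real.rpow_mul hN0.le, ← Real.rpow_add hN0]
        apply Real.rpow_le_rpow_of_exponent_le hN1.le
        push_cast
        linarith

end TFA

open TFA in
theorem FA : St_FA := by
  intro N ε₁ hN hε
  refine ⟨?_, ?_⟩
  · intro e he1 hsq hp hW
    have hT : sz (tt N) e ≤ 111 / 200 := by
      obtain ⟨u, v, huv, hu, hv⟩ := hW (111 / 200) 0 (by norm_num) le_rfl (by norm_num)
      have h1 : sz (tt N) (u * v) = _ := sz_mul (N := N) (u := u) (v := v) (by rw [huv]; exact hsq)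
      rw [huv] at h1
      linarith
    refine mem_facR hN hε he1 hsq hp hT fun h51 => ?_
    set T := sz (tt N) e with hTdef
    obtain ⟨u, v, huv, hu, hv⟩ := hW (4 - 7 * T - 1 / 500) (111 / 200 - (4 - 7 * T - 1 / 500))
      (by linarith) (by linarith) (by ring)
    have h1 : sz (tt N) (u * v) = _ := sz_mul (N := N) (u := u) (v := v) (by rw [huv]; exact hsq)
    rw [huv, ← hTdef] at h1
    refine ⟨u, ⟨v, huv.symm⟩, ?_, ?_⟩ <;> linarith
  · intro q e lam hq hqe he0 hsq hp hq1 hq2 hlam hq3 hW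
    have hcop : Nat.Coprime q e := (Nat.Prime.coprime_iff_not_dvd hq).2 hqe
    have hsqd : Squarefree (q * e) := (Nat.squarefree_mul hcop).2 ⟨hq.squarefree, hsq⟩
    have hszq : sz (tt N) q = tt N q := by
      unfold sz
      rw [hq.primeFactors, Finset.sum_singleton]
    have hmul : sz (tt N) (q * e) = tt N q + sz (tt N) e := by
      rw [sz_mul hsqd, hszq]
    have hTe : sz (tt N) e ≤ lam - tt N q := by
      obtain ⟨u, v, huv, hu, hv⟩ := hW (lam - tt N q) 0 (by linarith) le_rfl (by ring)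
      have h1 : sz (tt N) (u * v) = _ := sz_mul (N := N) (u := u) (v := v) (by rw [huv]; exact hsq)
      rw [huv] at h1
      linarith
    have hpd : ∀ p ∈ (q * e).primeFactors, ε₁ ≤ tt N p := by
      intro p hpm
      rw [Nat.primeFactors_mul hq.ne_zero he0, Finset.mem_union, hq.primeFactors,
        Finset.mem_singleton] at hpm
      rcases hpm with rfl | h
      · exact hq1
      · exact hp p h
    have h1qe : 1 < q * e := by
      have := hq.one_lt
      have := Nat.pos_of_ne_zero he0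
      nlinarith
    refine mem_facR hN hε h1qe hsqd hpd (by rw [hmul]; linarith) fun h51 => ?_
    set T := sz (tt N) (q * e) with hTdef
    set u := tt N q with hudef
    by_cases hA : u ≤ lam - 4 + 7 * T + 1 / 500
    · obtain ⟨x, v, hxv, hx, hv⟩ := hW (4 - 7 * T - 1 / 500) (lam - u - (4 - 7 * T - 1 / 500))
        (by linarith) (by linarith) (by ring)
      have h1 : sz (tt N) (x * v) = _ := sz_mul (N := N) (u := x) (v := v) (by rw [hxv]; exact hsq)
      rw [hxv] at h1
      refine ⟨x, (Dvd.intro v hxv).trans (dvd_mul_left e q), ?_, ?_⟩ <;> linarith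
    · push Not at hA
      refine ⟨e, dvd_mul_left e q, ?_, ?_⟩ <;> linarith

end Pool.Agent.W378.DC
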